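import Pool.Agent.W774.TL.Stm

namespace Pool.Agent.W583.TL

open Pool.Agent.W774.TL

theorem S_bound (u : ℝ) : |S u| ≤ 4 / 25 := by
  have hpi := Real.pi_gt_d2
  have h2 : (0 : ℝ) < 2 * Real.pi := by positivity
  unfold S
  rw [abs_div, abs_of_pos h2, div_le_iff₀ h2]
  have := Real.abs_sin_le_one (2 * Real.pi * u)
  linarith

theorem E_step (x p t : ℝ) (j j' : ℤ) (hj : j.natAbs = j'.natAbs + 1)
    (hd : |((j : ℝ) - j')| ≤ 1) :
    (3 : ℝ) ^ j.natAbs * E j x p t ≤ 6 * |p| * E j x p t + 9 * E j' x p t := by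
  have hEj : 0 < E j x p t := Real.exp_pos _
  have hEj' : 0 < E j' x p t := Real.exp_pos _
  obtain ⟨u, hu⟩ : ∃ u : ℝ, (3 : ℝ) ^ j.natAbs = u := ⟨_, rfl⟩
  have hu' : (3 : ℝ) ^ j'.natAbs = u / 3 := by
    rw [← hu, hj, pow_succ]; ring
  have hupos : 0 < u := by rw [← hu]; positivity
  rw [hu]
  rcases le_total u (6 * |p|) with h | h
  · have := mul_le_mul_of_nonneg_right h hEj.le
    linarith
  · have h1 : E j x p t = E j' x p t *
        Real.exp (((j : ℝ) - j') * p - (V j x t - V j' x t)) := by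
      unfold E
      rw [← Real.exp_add]
      congr 1
      ring
    have hV : u * (3 / 4 - 4 / 25) ≤ V j x t := by
      unfold V
      rw [hu]
      have := (abs_le.1 (S_bound (x - j * t))).1
      exact mul_le_mul_of_nonneg_left (by linarith) hupos.le
    have hV' : V j' x t ≤ u / 3 * (3 / 4 + 4 / 25) := by
      unfold V
      rw [hu']
      have := (abs_le.1 (S_bound (x - j' * t))).2
      exact mul_le_mul_of_nonneg_left (by linarith) (by positivity)
    have h2 : ((j : ℝ) - j') * p - (V j x t - V j' x t) ≤ -(3 / 25) * u := by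
      have h4 : ((j : ℝ) - j') * p ≤ |p| := by
        calc ((j : ℝ) - j') * p ≤ |((j : ℝ) - j') * p| := le_abs_self _
          _ = |(j : ℝ) - j'| * |p| := abs_mul _ _
          _ ≤ 1 * |p| := mul_le_mul_of_nonneg_right hd (abs_nonneg _)
          _ = |p| := one_mul _
      linarith
    have h3 : u * Real.exp (-(3 / 25) * u) ≤ 9 := by
      have h5 := Real.add_one_le_exp ((3 / 25) * u)
      have h6 : Real.exp (-(3 / 25) * u) * Real.exp ((3 / 25) * u) = 1 := by
        rw [← Real.exp_add]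
        have : -(3 / 25) * u + (3 / 25) * u = 0 := by ring
        rw [this, Real.exp_zero]
      have h7 := Real.exp_pos (-(3 / 25) * u)
      have h8 := mul_le_mul_of_nonneg_left h5 h7.le
      rw [h6] at h8
      linarith
    have h9 : u * E j x p t ≤ 9 * E j' x p t := by
      calc u * E j x p t = E j' x p t *
            (u * Real.exp (((j : ℝ) - j') * p - (V j x t - V j' x t))) := by
            rw [h1]; ring
        _ ≤ E j' x p t * (u * Real.exp (-(3 / 25) * u)) := by
            apply mul_le_mul_of_nonneg_left _ hEj'.le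
            exact mul_le_mul_of_nonneg_left (Real.exp_le_exp.2 h2) hupos.le
        _ ≤ E j' x p t * 9 := mul_le_mul_of_nonneg_left h3 hEj'.le
        _ = 9 * E j' x p t := mul_comm _ _
    have h10 : 0 ≤ 6 * |p| * E j x p t := by positivity
    linarith

theorem E_bd (x p t : ℝ) (j : ℤ) :
    (3 : ℝ) ^ j.natAbs * E j x p t ≤
      (6 * |p| + 1) * E j x p t + 9 * E (j - 1) x p t + 9 * E (j + 1) x p t := by
  have hE : 0 < E j x p t := Real.exp_pos _
  have hE1 : 0 < E (j - 1) x p t := Real.exp_pos _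
  have hE2 : 0 < E (j + 1) x p t := Real.exp_pos _
  have hp := abs_nonneg p
  rcases lt_trichotomy j 0 with h | h | h
  · have := E_step x p t j (j + 1) (by omega) (by push_cast; norm_num)
    nlinarith
  · subst h
    simp only [Int.natAbs_zero, pow_zero, one_mul]
    have := mul_nonneg hp hE.le
    nlinarith
  · have := E_step x p t j (j - 1) (by omega) (by push_cast; norm_num)
    nlinarith

theorem abs_le_three_pow (j : ℤ) : |(j : ℝ)| ≤ (3 : ℝ) ^ j.natAbs := by
  have h1 : |(j : ℝ)| = (j.natAbs : ℝ) := by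
    rw [Nat.cast_natAbs, Int.cast_abs]
  rw [h1]
  have h2 : j.natAbs < 3 ^ j.natAbs := Nat.lt_pow_self (by norm_num)
  exact_mod_cast h2.le

theorem grow_thm (h1 : P_SUM) : P_GROW := by
  intro x p t
  have hpos : ∀ j : ℤ, 0 < E j x p t := fun j => Real.exp_pos _
  have hpow : ∀ j : ℤ, (1 : ℝ) ≤ (3 : ℝ) ^ j.natAbs := fun j =>
    one_le_pow₀ (by norm_num)
  have sum1 : Summable (fun j : ℤ => (3 : ℝ) ^ j.natAbs * E j x p t) := by
    obtain ⟨u, hu, hb⟩ := h1 1 |p|
    refine Summable.of_nonneg_of_le (fun j => ?_) (fun j => ?_) hu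
    · exact mul_nonneg (by positivity) (hpos j).le
    · have := hb j x p t le_rfl
      rwa [pow_one] at this
  have sumE : Summable (fun j : ℤ => E j x p t) := by
    refine Summable.of_nonneg_of_le (fun j => (hpos j).le) (fun j => ?_) sum1
    have := mul_le_mul_of_nonneg_right (hpow j) (hpos j).le
    linarith
  have hZ : 0 < Z x p t := sumE.tsum_pos (fun j => (hpos j).le) 0 (hpos 0)
  have sE1 : Summable (fun j : ℤ => E (j - 1) x p t) :=
    (Equiv.subRight (1 : ℤ)).summable_iff.2 sumE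
  have sE2 : Summable (fun j : ℤ => E (j + 1) x p t) :=
    (Equiv.addRight (1 : ℤ)).summable_iff.2 sumE
  have tE1 : ∑' j : ℤ, E (j - 1) x p t = Z x p t :=
    (Equiv.subRight (1 : ℤ)).tsum_eq (fun j => E j x p t)
  have tE2 : ∑' j : ℤ, E (j + 1) x p t = Z x p t :=
    (Equiv.addRight (1 : ℤ)).tsum_eq (fun j => E j x p t)
  have hM : ∑' j : ℤ, (3 : ℝ) ^ j.natAbs * E j x p t ≤ (6 * |p| + 19) * Z x p t := by
    have s1 := sumE.mul_left (6 * |p| + 1)
    have s2 := sE1.mul_left (9 : ℝ)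
    have s3 := sE2.mul_left (9 : ℝ)
    have h2 := sum1.tsum_le_tsum (E_bd x p t) ((s1.add s2).add s3)
    rw [(s1.add s2).tsum_add s3, s1.tsum_add s2, tsum_mul_left, tsum_mul_left, tsum_mul_left,
      tE1, tE2] at h2
    have h3 : ∑' j : ℤ, E j x p t = Z x p t := rfl
    rw [h3] at h2
    linarith
  have key : ∀ f : ℤ → ℝ, (∀ j, |f j| ≤ (3 : ℝ) ^ j.natAbs * E j x p t) →
      |(∑' j : ℤ, f j) / Z x p t| ≤ 12 * |p| + 100 := by
    intro f hf
    have sf : Summable (fun j => ‖f j‖) :=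
      Summable.of_nonneg_of_le (fun j => norm_nonneg _) hf sum1
    have h2 : |∑' j : ℤ, f j| ≤ ∑' j : ℤ, (3 : ℝ) ^ j.natAbs * E j x p t := by
      calc |∑' j : ℤ, f j| ≤ ∑' j : ℤ, ‖f j‖ := norm_tsum_le_tsum_norm sf
        _ ≤ _ := sf.tsum_le_tsum hf sum1
    rw [abs_div, abs_of_pos hZ, div_le_iff₀ hZ]
    have hp := abs_nonneg p
    nlinarith [mul_nonneg hp hZ.le]
  constructor
  · refine key _ fun j => ?_
    rw [abs_mul, abs_mul, abs_of_pos (hpos j), abs_of_pos (by positivity : (0 : ℝ) < 3 ^ j.natAbs)]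
    have h2 : |Co (x - j * t)| ≤ 1 := Real.abs_cos_le_one _
    have h3 : (0 : ℝ) ≤ 3 ^ j.natAbs := by positivity
    have h4 := mul_le_mul_of_nonneg_left h2 h3
    rw [mul_one] at h4
    exact mul_le_mul_of_nonneg_right h4 (hpos j).le
  · refine key _ fun j => ?_
    rw [abs_mul, abs_of_pos (hpos j)]
    exact mul_le_mul_of_nonneg_right (abs_le_three_pow j) (hpos j).le

end Pool.Agent.W583.TL
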